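import Mathlib
set_option autoImplicit false
open Topology Filter Pointwise
namespace Pool.Agent.Results.MP_311bfa_al.NoExt

/-- the local ring -/
@[ext] structure T where
  s : ℚ
  a : ℕ → ℚ
  m : ℚ
  u : ℕ → ℚ
  v : ℕ → ℚ
  c : ℕ → ℕ → ℚ

instance : Add T := ⟨fun x y => ⟨x.s + y.s, fun j => x.a j + y.a j, x.m + y.m,
  fun j => x.u j + y.u j, fun j => x.v j + y.v j, fun j k => x.c j k + y.c j k⟩⟩
instance : Neg T := ⟨fun x => ⟨-x.s, fun j => -x.a j, -x.m, fun j => -x.u j, fun j => -x.v j,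
  fun j k => -x.c j k⟩⟩
instance : Zero T := ⟨⟨0, fun _ => 0, 0, fun _ => 0, fun _ => 0, fun _ _ => 0⟩⟩
instance : One T := ⟨⟨1, fun _ => 0, 0, fun _ => 0, fun _ => 0, fun _ _ => 0⟩⟩
instance : Mul T := ⟨fun x y => ⟨x.s * y.s, fun j => x.s * y.a j + y.s * x.a j,
  x.s * y.m + y.s * x.m, fun j => x.s * y.u j + y.s * x.u j + x.a j * y.m,
  fun j => x.s * y.v j + y.s * x.v j + x.m * y.a j,
  fun j k => x.s * y.c j k + y.s * x.c j k + x.a j * y.v k + x.u j * y.a k⟩⟩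

lemma add_def (x y : T) : x + y = ⟨x.s + y.s, fun j => x.a j + y.a j, x.m + y.m,
  fun j => x.u j + y.u j, fun j => x.v j + y.v j, fun j k => x.c j k + y.c j k⟩ := rfl
lemma neg_def (x : T) : -x = ⟨-x.s, fun j => -x.a j, -x.m, fun j => -x.u j, fun j => -x.v j,
  fun j k => -x.c j k⟩ := rfl
lemma zero_def : (0 : T) = ⟨0, fun _ => 0, 0, fun _ => 0, fun _ => 0, fun _ _ => 0⟩ := rfl
lemma one_def : (1 : T) = ⟨1, fun _ => 0, 0, fun _ => 0, fun _ => 0, fun _ _ => 0⟩ := rfl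
lemma mul_def (x y : T) : x * y = ⟨x.s * y.s, fun j => x.s * y.a j + y.s * x.a j,
  x.s * y.m + y.s * x.m, fun j => x.s * y.u j + y.s * x.u j + x.a j * y.m,
  fun j => x.s * y.v j + y.s * x.v j + x.m * y.a j,
  fun j k => x.s * y.c j k + y.s * x.c j k + x.a j * y.v k + x.u j * y.a k⟩ := rfl

instance : Ring T := Ring.ofMinimalAxioms
  (by intro x y z; ext <;> simp only [add_def] <;> ring)
  (by intro x; ext <;> simp only [add_def, zero_def] <;> ring)
  (by intro x; ext <;> simp only [add_def, zero_def, neg_def] <;> ring)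
  (by intro x y z; ext <;> simp only [mul_def] <;> ring)
  (by intro x; ext <;> simp only [mul_def, one_def] <;> ring)
  (by intro x; ext <;> simp only [mul_def, one_def] <;> ring)
  (by intro x y z; ext <;> simp only [mul_def, add_def] <;> ring)
  (by intro x y z; ext <;> simp only [mul_def, add_def] <;> ring)

def μ : T := ⟨0, fun _ => 0, 1, fun _ => 0, fun _ => 0, fun _ _ => 0⟩
def mkA (a : ℕ → ℚ) : T := ⟨0, a, 0, fun _ => 0, fun _ => 0, fun _ _ => 0⟩
def mkC (c : ℕ → ℕ → ℚ) : T := ⟨0, fun _ => 0, 0, fun _ => 0, fun _ => 0, c⟩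
def I (n : ℕ) (s : ℚ) : T := mkC fun j k => if j = k ∧ j < n + 1 then s else 0

lemma mul_I (t : T) (n : ℕ) (s : ℚ) : t * I n s = I n (t.s * s) := by
  ext <;> simp [mul_def, I, mkC]
lemma I_mul (t : T) (n : ℕ) (s : ℚ) : I n s * t = I n (t.s * s) := by
  ext <;> simp [mul_def, I, mkC]

abbrev S : Type := ℕ × ℕ

inductive Small : (S → T) → ℝ → Prop
  | zero : Small 0 0
  | null (σ σ' : S) (s : ℚ) : Small (Pi.single σ (I σ.1 s) - Pi.single σ' (I σ'.1 s)) 0
  | one (σ : S) (t t' : T) : Small (Pi.single σ (t * μ * t')) (1 / (σ.1 + 1))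
  | add {x y : S → T} {c d : ℝ} : Small x c → Small y d → Small (x + y) (c + d)

lemma mul_single (r : S → T) (σ : S) (x : T) : r * Pi.single σ x = Pi.single σ (r σ * x) := by
  funext τ
  by_cases h : τ = σ
  · subst h; simp
  · simp [h]

lemma single_mul (r : S → T) (σ : S) (x : T) : Pi.single σ x * r = Pi.single σ (x * r σ) := by
  funext τ
  by_cases h : τ = σ
  · subst h; simp
  · simp [h]

lemma Small.mul_left {x : S → T} {c : ℝ} (h : Small x c) (r : S → T) (s0 : ℚ)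
    (hr : ∀ σ, (r σ).s = s0) : Small (r * x) c := by
  induction h with
  | zero => rw [mul_zero]; exact Small.zero
  | null σ σ' s =>
    rw [mul_sub, mul_single, mul_single, mul_I, mul_I, hr, hr]
    exact Small.null _ _ _
  | one σ t t' =>
    rw [mul_single, ← mul_assoc, ← mul_assoc]
    exact Small.one _ _ _
  | add _ _ h1 h2 => rw [mul_add]; exact h1.add h2

lemma Small.mul_right {x : S → T} {c : ℝ} (h : Small x c) (r : S → T) (s0 : ℚ)
    (hr : ∀ σ, (r σ).s = s0) : Small (x * r) c := by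
  induction h with
  | zero => rw [zero_mul]; exact Small.zero
  | null σ σ' s =>
    rw [sub_mul, single_mul, single_mul, I_mul, I_mul, hr, hr]
    exact Small.null _ _ _
  | one σ t t' =>
    rw [single_mul, mul_assoc]
    exact Small.one _ _ _
  | add _ _ h1 h2 => rw [add_mul]; exact h1.add h2

def blk (n : ℕ) : T →+ Matrix (Fin (n + 1)) (Fin (n + 1)) ℚ where
  toFun t := Matrix.of fun j k => t.c j k
  map_zero' := rfl
  map_add' _ _ := rfl

lemma blk_I (n : ℕ) (s : ℚ) : blk n (I n s) = s • 1 := by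
  ext j k
  change (if (j : ℕ) = k ∧ (j : ℕ) < n + 1 then s else 0) = _
  simp [Matrix.one_apply, Fin.val_inj, j.2]

lemma rank_add {n : ℕ} (A B : Matrix (Fin n) (Fin n) ℚ) : (A + B).rank ≤ A.rank + B.rank := by
  unfold Matrix.rank
  refine le_trans (Submodule.finrank_mono ?_) (Submodule.finrank_add_le_finrank_add_finrank _ _)
  rintro _ ⟨x, rfl⟩
  rw [Matrix.mulVecLin_add]
  exact Submodule.add_mem_sup ⟨x, rfl⟩ ⟨x, rfl⟩

lemma Small.lower {x : S → T} {c : ℝ} (h : Small x c) : ∃ w : S →₀ ℚ,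
    w.sum (fun _ a => a) = 0 ∧ ∀ F : Finset S,
      ∑ σ ∈ F, ((blk σ.1 (x σ) - w σ • 1).rank : ℝ) / (σ.1 + 1) ≤ c := by
  classical
  induction h with
  | zero => exact ⟨0, by simp, by simp⟩
  | null σ σ' s =>
    refine ⟨Finsupp.single σ s - Finsupp.single σ' s, ?_, fun F => ?_⟩
    · rw [Finsupp.sum_sub_index (fun _ _ _ => rfl)]
      simp
    · refine le_of_eq (Finset.sum_eq_zero fun τ _ => ?_)
      have h1 : ∀ ρ : S, blk τ.1 ((Pi.single ρ (I ρ.1 s) : S → T) τ) =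
          (Finsupp.single ρ s) τ • 1 := by
        intro ρ
        by_cases h : τ = ρ
        · subst h; simp [blk_I]
        · simp [h, Finsupp.single_eq_of_ne h]
      rw [Pi.sub_apply, map_sub, h1, h1, Finsupp.sub_apply, sub_smul, sub_self]
      simp
  | one σ t t' =>
    refine ⟨0, by simp, fun F => ?_⟩
    have h1 : ∀ τ : S, ((blk τ.1 ((Pi.single σ (t * μ * t') : S → T) τ) -
        (0 : S →₀ ℚ) τ • 1).rank : ℝ) / (τ.1 + 1) ≤ if τ = σ then 1 / ((σ.1 : ℝ) + 1) else 0 := by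
      intro τ
      by_cases h : τ = σ
      · subst h
        rw [if_pos rfl, Pi.single_eq_same, Finsupp.zero_apply, zero_smul, sub_zero]
        have h2 : blk τ.1 (t * μ * t') = Matrix.vecMulVec (fun j : Fin (τ.1 + 1) => t.a j)
            (fun k : Fin (τ.1 + 1) => t'.a k) := by
          ext j k
          change (t * μ * t').c j k = _
          simp [mul_def, μ, Matrix.vecMulVec_apply]
        rw [h2]
        have h3 := Matrix.rank_vecMulVec_le (fun j : Fin (τ.1 + 1) => t.a j)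
          (fun k : Fin (τ.1 + 1) => t'.a k)
        gcongr
        exact_mod_cast h3
      · simp [h]
    refine le_trans (Finset.sum_le_sum fun τ _ => h1 τ) ?_
    rw [Finset.sum_ite_eq']
    split_ifs
    · exact le_rfl
    · positivity
  | @add x y c d _ _ h1 h2 =>
    obtain ⟨w, hw, hw'⟩ := h1
    obtain ⟨w', hv, hv'⟩ := h2
    refine ⟨w + w', ?_, fun F => ?_⟩
    · rw [Finsupp.sum_add_index' (fun _ => rfl) (fun _ _ _ => rfl), hw, hv, add_zero]
    · refine le_trans ?_ (add_le_add (hw' F) (hv' F))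
      rw [← Finset.sum_add_distrib]
      refine Finset.sum_le_sum fun τ _ => ?_
      rw [← add_div]
      have h3 : blk τ.1 ((x + y) τ) - (w + w') τ • 1 =
          (blk τ.1 (x τ) - w τ • 1) + (blk τ.1 (y τ) - w' τ • 1) := by
        rw [Pi.add_apply, map_add, Finsupp.add_apply, add_smul]; abel
      rw [h3]
      gcongr
      exact_mod_cast rank_add _ _

lemma rank_smul_one (n : ℕ) (s : ℚ) (hs : s ≠ 0) :
    (s • (1 : Matrix (Fin (n + 1)) (Fin (n + 1)) ℚ)).rank = n + 1 := by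
  rw [Matrix.rank_of_isUnit, Fintype.card_fin]
  rw [← Algebra.algebraMap_eq_smul_one]
  exact (IsUnit.mk0 s hs).map _

lemma Small.ge {x : S → T} {c : ℝ} (h : Small x c)
    (hx : ∀ σ, (x σ).c = ((Pi.single (0, 0) (I 0 1) : S → T) σ).c) : 1 ≤ c := by
  obtain ⟨w, hw, hw'⟩ := h.lower
  have hb : ∀ σ : S, blk σ.1 (x σ) = blk σ.1 ((Pi.single (0, 0) (I 0 1) : S → T) σ) := by
    intro σ
    ext j k
    exact congrFun (congrFun (hx σ) j) k
  have key : ∃ σ : S, ∃ s : ℚ, s ≠ 0 ∧ blk σ.1 (x σ) - w σ • 1 = s • 1 := by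
    by_cases h1 : ∃ σ, σ ≠ (0, 0) ∧ w σ ≠ 0
    · obtain ⟨σ, h2, h3⟩ := h1
      refine ⟨σ, -w σ, neg_ne_zero.2 h3, ?_⟩
      rw [hb, Pi.single_eq_of_ne h2, map_zero, zero_sub, neg_smul]
    · push Not at h1
      have h2 : w (0, 0) = 0 := by
        rw [Finsupp.sum_eq_single (0, 0) (fun σ h3 h4 => absurd (h1 σ h4) h3) (fun _ => rfl)] at hw
        exact hw
      refine ⟨(0, 0), 1, one_ne_zero, ?_⟩
      rw [hb, Pi.single_eq_same, h2, zero_smul, sub_zero]
      exact blk_I 0 1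
  obtain ⟨σ, s, hs, hs'⟩ := key
  have := hw' {σ}
  rw [Finset.sum_singleton, hs', rank_smul_one _ _ hs] at this
  push_cast at this
  rwa [div_self (by positivity)] at this

def supp (r : S → T) : Set S := {σ | ¬ ((r σ).m = 0 ∧ (r σ).u = 0 ∧ (r σ).v = 0)}

/-- the ring before passing to the separation quotient -/
def R0 : Subring (S → T) where
  carrier := {r | (∃ s0, ∀ σ, (r σ).s = s0) ∧ (supp r).Finite}
  zero_mem' := ⟨⟨0, fun _ => rfl⟩, Set.finite_empty.subset fun _ h => h ⟨rfl, rfl, rfl⟩⟩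
  one_mem' := ⟨⟨1, fun _ => rfl⟩, Set.finite_empty.subset fun _ h => h ⟨rfl, rfl, rfl⟩⟩
  add_mem' := by
    rintro x y ⟨⟨s, hs⟩, hx⟩ ⟨⟨t, ht⟩, hy⟩
    refine ⟨⟨s + t, fun σ => by rw [← hs σ, ← ht σ]; rfl⟩, (hx.union hy).subset fun σ h => ?_⟩
    by_contra hc
    simp only [supp, Set.mem_union, Set.mem_setOf_eq, not_or, not_not] at hc
    apply h
    simp only [Pi.add_apply, add_def, hc.1.1, hc.1.2.1, hc.1.2.2, hc.2.1, hc.2.2.1, hc.2.2.2]
    simp [funext_iff]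
  neg_mem' := by
    rintro x ⟨⟨s, hs⟩, hx⟩
    refine ⟨⟨-s, fun σ => by rw [← hs σ]; rfl⟩, hx.subset fun σ h => ?_⟩
    intro hc
    apply h
    simp only [Pi.neg_apply, neg_def, hc.1, hc.2.1, hc.2.2]
    simp [funext_iff]
  mul_mem' := by
    rintro x y ⟨⟨s, hs⟩, hx⟩ ⟨⟨t, ht⟩, hy⟩
    refine ⟨⟨s * t, fun σ => by rw [← hs σ, ← ht σ]; rfl⟩, (hx.union hy).subset fun σ h => ?_⟩
    by_contra hc
    simp only [supp, Set.mem_union, Set.mem_setOf_eq, not_or, not_not] at hc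
    apply h
    simp only [Pi.mul_apply, mul_def, hc.1.1, hc.1.2.1, hc.1.2.2, hc.2.1, hc.2.2.1, hc.2.2.2]
    simp [funext_iff]

def Aonly (y : S → T) (F : Set S) : Prop := (∀ σ, ∃ a, y σ = mkA a) ∧ ∀ σ ∈ F, y σ = 0

def V (F : Set S) (ε : ℝ) : Set R0 :=
  {r | ∃ y x c, r.1 = y + x ∧ Aonly y F ∧ c < ε ∧ Small x c}

lemma Aonly_zero (F : Set S) : Aonly 0 F := ⟨fun _ => ⟨fun _ => 0, rfl⟩, fun _ _ => rfl⟩

lemma V_mono {F F' : Set S} {ε ε' : ℝ} (h : F ⊆ F') (h' : ε' ≤ ε) : V F' ε' ⊆ V F ε := by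
  rintro r ⟨y, x, c, h1, h2, h3, h4⟩
  exact ⟨y, x, c, h1, ⟨h2.1, fun σ hσ => h2.2 σ (h hσ)⟩, h3.trans_le h', h4⟩

lemma V_mul_left (r0 : R0) (F : Set S) (ε : ℝ) :
    V (F ∪ supp r0.1) ε ⊆ (fun x => r0 * x) ⁻¹' V F ε := by
  rintro r ⟨y, x, c, h1, h2, h3, h4⟩
  obtain ⟨s, hs⟩ := r0.2.1
  refine ⟨r0.1 * y, r0.1 * x, c, by rw [← mul_add, ← h1]; rfl, ⟨fun σ => ?_, fun σ hσ => ?_⟩, h3,
    h4.mul_left _ s hs⟩
  · by_cases h : σ ∈ supp r0.1
    · exact ⟨fun _ => 0, by rw [Pi.mul_apply, h2.2 σ (Or.inr h), mul_zero]; rfl⟩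
    · obtain ⟨a, ha⟩ := h2.1 σ
      simp only [supp, Set.mem_setOf_eq, not_not] at h
      refine ⟨fun j => (r0.1 σ).s * a j, ?_⟩
      rw [Pi.mul_apply, ha]
      ext <;> simp [mul_def, mkA, h.1, h.2.1]
  · rw [Pi.mul_apply, h2.2 σ (Or.inl hσ), mul_zero]

lemma V_mul_right (r0 : R0) (F : Set S) (ε : ℝ) :
    V (F ∪ supp r0.1) ε ⊆ (fun x => x * r0) ⁻¹' V F ε := by
  rintro r ⟨y, x, c, h1, h2, h3, h4⟩
  obtain ⟨s, hs⟩ := r0.2.1
  refine ⟨y * r0.1, x * r0.1, c, by rw [← add_mul, ← h1]; rfl, ⟨fun σ => ?_, fun σ hσ => ?_⟩, h3,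
    h4.mul_right _ s hs⟩
  · by_cases h : σ ∈ supp r0.1
    · exact ⟨fun _ => 0, by rw [Pi.mul_apply, h2.2 σ (Or.inr h), zero_mul]; rfl⟩
    · obtain ⟨a, ha⟩ := h2.1 σ
      simp only [supp, Set.mem_setOf_eq, not_not] at h
      refine ⟨fun j => (r0.1 σ).s * a j, ?_⟩
      rw [Pi.mul_apply, ha]
      ext <;> simp [mul_def, mkA, h.1, h.2.2]
  · rw [Pi.mul_apply, h2.2 σ (Or.inl hσ), zero_mul]

def B0 : AddGroupFilterBasis R0 := addGroupFilterBasisOfComm
  {U | ∃ F ε, F.Finite ∧ 0 < ε ∧ U = V F ε} ⟨_, ∅, 1, Set.finite_empty, one_pos, rfl⟩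
  (by
    rintro _ _ ⟨F, ε, hF, hε, rfl⟩ ⟨F', ε', hF', hε', rfl⟩
    exact ⟨_, ⟨F ∪ F', min ε ε', hF.union hF', lt_min hε hε', rfl⟩, Set.subset_inter
      (V_mono Set.subset_union_left (min_le_left _ _))
      (V_mono Set.subset_union_right (min_le_right _ _))⟩)
  (by
    rintro _ ⟨F, ε, _, hε, rfl⟩
    exact ⟨0, 0, 0, by simp, Aonly_zero F, hε, Small.zero⟩)
  (by
    rintro _ ⟨F, ε, hF, hε, rfl⟩
    refine ⟨_, ⟨F, ε / 2, hF, half_pos hε, rfl⟩, ?_⟩
    rintro _ ⟨r, ⟨y, x, c, h1, h2, h3, h4⟩, r', ⟨y', x', c', h1', h2', h3', h4'⟩, rfl⟩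
    refine ⟨y + y', x + x', c + c', ?_, ⟨fun σ => ?_, fun σ hσ => ?_⟩, by linarith, h4.add h4'⟩
    · change r.1 + r'.1 = _
      rw [h1, h1']; abel
    · obtain ⟨a, ha⟩ := h2.1 σ
      obtain ⟨a', ha'⟩ := h2'.1 σ
      refine ⟨fun j => a j + a' j, ?_⟩
      rw [Pi.add_apply, ha, ha']
      ext <;> simp [add_def, mkA]
    · rw [Pi.add_apply, h2.2 σ hσ, h2'.2 σ hσ, add_zero])
  (by
    rintro _ ⟨F, ε, hF, hε, rfl⟩
    refine ⟨_, ⟨F ∪ supp (-1 : R0).1, ε, hF.union (-1 : R0).2.2, hε, rfl⟩, fun r hr => ?_⟩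
    have := V_mul_left (-1) F ε hr
    simpa using this)

def B1 : RingFilterBasis R0 where
  toAddGroupFilterBasis := B0
  mul' := by
    rintro _ ⟨F, ε, hF, hε, rfl⟩
    refine ⟨_, ⟨F, ε / 2, hF, half_pos hε, rfl⟩, ?_⟩
    rintro _ ⟨r, ⟨y, x, c, h1, h2, h3, h4⟩, r', ⟨y', x', c', h1', h2', h3', h4'⟩, rfl⟩
    obtain ⟨s, hs⟩ := r'.2.1
    have hy : ∀ σ, (y σ).s = 0 := fun σ => by
      obtain ⟨a, ha⟩ := h2.1 σ
      rw [ha]; rfl
    have hyy : y * y' = 0 := by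
      funext σ
      obtain ⟨a, ha⟩ := h2.1 σ
      obtain ⟨a', ha'⟩ := h2'.1 σ
      rw [Pi.mul_apply, ha, ha', Pi.zero_apply]
      ext <;> simp [mul_def, mkA, zero_def]
    refine ⟨0, y * x' + x * r'.1, c' + c, ?_, Aonly_zero F, by linarith,
      (h4'.mul_left y 0 hy).add (h4.mul_right _ s hs)⟩
    change r.1 * r'.1 = _
    rw [h1, add_mul, zero_add]
    congr 1
    rw [h1', mul_add, hyy, zero_add]
  mul_left' := by
    rintro r0 _ ⟨F, ε, hF, hε, rfl⟩
    exact ⟨_, ⟨F ∪ supp r0.1, ε, hF.union r0.2.2, hε, rfl⟩, V_mul_left r0 F ε⟩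
  mul_right' := by
    rintro r0 _ ⟨F, ε, hF, hε, rfl⟩
    exact ⟨_, ⟨F ∪ supp r0.1, ε, hF.union r0.2.2, hε, rfl⟩, V_mul_right r0 F ε⟩

/-- type synonym carrying the topology -/
def R1 : Type := R0
instance : Ring R1 := inferInstanceAs (Ring R0)
instance : TopologicalSpace R1 := B1.topology
instance : IsTopologicalRing R1 := B1.isTopologicalRing

lemma mem_nhds {U : Set R1} : U ∈ 𝓝 (0 : R1) ↔ ∃ F ε, F.Finite ∧ 0 < ε ∧ V F ε ⊆ U := by
  have := B0.nhds_zero_hasBasis.mem_iff (t := U)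
  refine this.trans ⟨?_, ?_⟩
  · rintro ⟨_, ⟨F, ε, hF, hε, rfl⟩, h⟩
    exact ⟨F, ε, hF, hε, h⟩
  · rintro ⟨F, ε, hF, hε, h⟩
    exact ⟨_, ⟨F, ε, hF, hε, rfl⟩, h⟩

def sg (σ : S) (t : T) (ht : t.s = 0) : R1 := (⟨Pi.single σ t, ⟨0, fun τ => by
    by_cases h : τ = σ
    · subst h; simpa using ht
    · rw [Pi.single_eq_of_ne h]; rfl⟩, (Set.finite_singleton σ).subset fun τ h => by
    by_contra hc
    apply h
    rw [Pi.single_eq_of_ne hc]
    exact ⟨rfl, rfl, rfl⟩⟩ : R0)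

def val (r : R1) : S → T := Subtype.val r

def ea (j : ℕ) : T := mkA fun i => if i = j then 1 else 0

def rA (σ : S) (j : ℕ) : R1 := sg σ (ea j) rfl
def rM (σ : S) : R1 := sg σ μ rfl
def rI (σ : S) : R1 := sg σ (I σ.1 1) rfl

lemma sum_diag (σ : S) : ∑ j ∈ Finset.range (σ.1 + 1), rA σ j * rM σ * rA σ j = rI σ := by
  apply Subtype.ext
  have h0 : ∀ (s : Finset ℕ) (f : ℕ → R1), val (∑ j ∈ s, f j) = ∑ j ∈ s, val (f j) :=
    fun s f => map_sum R0.subtype f s
  change val _ = Pi.single σ (I σ.1 1)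
  rw [h0]
  have h1 : ∀ j, val (rA σ j * rM σ * rA σ j) = Pi.single σ (ea j * μ * ea j) := by
    intro j
    change (Pi.single σ (ea j) : S → T) * (Pi.single σ μ : S → T) *
      (Pi.single σ (ea j) : S → T) = _
    rw [mul_single, single_mul, Pi.single_eq_same, Pi.single_eq_same]
  simp only [h1]
  have h2 : ∀ n, ∑ j ∈ Finset.range n, ea j * μ * ea j =
      mkC fun j k => if j = k ∧ j < n then 1 else 0 := by
    intro n
    induction n with
    | zero => simp; rfl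
    | succ n ih =>
      rw [Finset.sum_range_succ, ih]
      ext j k <;> simp [add_def, mul_def, mkC, ea, mkA, μ]
      split_ifs <;> first | omega | simp
  have h3 := map_sum (AddMonoidHom.single (fun _ : S => T) σ) (fun j => ea j * μ * ea j)
    (Finset.range (σ.1 + 1))
  simp only [AddMonoidHom.single_apply] at h3
  rw [← h3, h2]
  rfl

abbrev R : Type := SeparationQuotient R1

def π : R1 →+* R := SeparationQuotient.mkRingHom

lemma π_cont : Continuous π := SeparationQuotient.continuous_mk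

lemma π_eq_zero (r : R1) : π r = 0 ↔ ∀ U ∈ 𝓝 (0 : R1), r ∈ U := by
  have h1 : π r = 0 ↔ Inseparable r 0 := SeparationQuotient.mk_eq_mk
  rw [h1, ← specializes_iff_inseparable, specializes_iff_pure, pure_le_iff]

lemma π_I (σ : S) : π (rI σ) = π (rI (0, 0)) := by
  rw [← sub_eq_zero, ← map_sub, π_eq_zero]
  intro U hU
  obtain ⟨F, ε, _, hε, h⟩ := mem_nhds.1 hU
  exact h ⟨0, _, 0, (zero_add _).symm, Aonly_zero F, hε, Small.null σ (0, 0) 1⟩

lemma π_ne : π (rI (0, 0)) ≠ 0 := by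
  rw [Ne, π_eq_zero]
  intro h
  obtain ⟨y, x, c, h1, h2, h3, h4⟩ := h (V ∅ 1)
    (mem_nhds.2 ⟨∅, 1, Set.finite_empty, one_pos, le_rfl⟩)
  refine absurd (h4.ge fun σ => ?_) (not_le.2 h3)
  have h5 : (Pi.single (0, 0) (I 0 1) : S → T) σ = y σ + x σ := congrFun h1 σ
  obtain ⟨a, ha⟩ := h2.1 σ
  rw [h5, ha]
  simp [add_def, mkA]

lemma tend_A (n j : ℕ) : Tendsto (fun i => rA (n, i) j) atTop (𝓝 0) := by
  intro U hU
  obtain ⟨F, ε, hF, hε, h⟩ := mem_nhds.1 hU
  have h1 : ∀ᶠ i in atTop, (n, i) ∉ F := by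
    rw [← Nat.cofinite_eq_atTop]
    exact (hF.preimage (f := fun i => (n, i)) (fun _ _ _ _ h => (Prod.mk.inj h).2)).compl_mem_cofinite
  rw [mem_map]
  filter_upwards [h1] with i hi
  refine h ⟨_, 0, 0, (add_zero _).symm, ⟨fun σ => ?_, fun σ hσ => ?_⟩, hε, Small.zero⟩
  · change ∃ a, (Pi.single (n, i) (ea j) : S → T) σ = mkA a
    by_cases h2 : σ = (n, i)
    · subst h2; exact ⟨_, Pi.single_eq_same _ _⟩
    · exact ⟨fun _ => 0, Pi.single_eq_of_ne h2 _⟩
  · change (Pi.single (n, i) (ea j) : S → T) σ = 0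
    exact Pi.single_eq_of_ne (by rintro rfl; exact hi hσ) _

lemma ex_M {U : Set R1} (hU : U ∈ 𝓝 (0 : R1)) : ∃ n, ∀ i, rM (n, i) ∈ U := by
  obtain ⟨F, ε, _, hε, h⟩ := mem_nhds.1 hU
  obtain ⟨n, hn⟩ := exists_nat_one_div_lt hε
  refine ⟨n, fun i => h ⟨0, _, _, (zero_add _).symm, Aonly_zero F, hn, ?_⟩⟩
  have := Small.one (n, i) 1 1
  rwa [one_mul, mul_one] at this

abbrev G : Type := Function.End ℕ

def gg (j : ℕ) : G := fun y => if (Nat.unpair y).1 = j then (Nat.unpair y).2 else 0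
def hh (k : ℕ) : G := fun x => Nat.pair k x
def z : G := fun _ => 0

lemma gh (j k : ℕ) : gg j * hh k = if k = j then 1 else z := by
  funext x
  change (if (Nat.unpair (Nat.pair k x)).1 = j then (Nat.unpair (Nat.pair k x)).2 else 0) = _
  rw [Nat.unpair_pair]
  split_ifs <;> rfl

theorem result : ¬ ∀ (R : Type) [Ring R] [τ₀ : TopologicalSpace R] [IsTopologicalRing R]
    [T2Space R] (G : Type) [Monoid G], ∃ τ : TopologicalSpace (MonoidAlgebra R G),
      @IsTopologicalRing _ τ _ ∧ @T2Space _ τ ∧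
      TopologicalSpace.induced (fun r : R => MonoidAlgebra.single (1 : G) r) τ = τ₀ := by
  intro h
  obtain ⟨τ, h1, h2, h3⟩ := h R G
  have hj : Continuous (fun r : R => (MonoidAlgebra.single (1 : G) r : MonoidAlgebra R G)) :=
    continuous_iff_le_induced.2 h3.symm.le
  have hj' : ∀ g : G, Tendsto (fun r : R1 => (MonoidAlgebra.single g (π r) : MonoidAlgebra R G))
      (𝓝 0) (𝓝 0) := by
    intro g
    have h4 : Continuous (fun r : R1 => (MonoidAlgebra.single (1 : G) (π r) : MonoidAlgebra R G) *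
        MonoidAlgebra.single g 1) := (hj.comp π_cont).mul continuous_const
    simp only [MonoidAlgebra.single_mul_single, one_mul, mul_one] at h4
    have h5 := h4.tendsto 0
    simpa using h5
  set κ : MonoidAlgebra R G := MonoidAlgebra.single 1 1 - MonoidAlgebra.single z 1 with hκ
  set c := π (rI (0, 0)) with hc
  have key : ∀ W ∈ 𝓝 (0 : MonoidAlgebra R G),
      MonoidAlgebra.single (1 : G) c - MonoidAlgebra.single z c ∈ W := by
    intro W hW
    have h4 : Continuous (fun p : MonoidAlgebra R G × MonoidAlgebra R G × MonoidAlgebra R G =>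
        p.1 * p.2.1 * p.2.2 * κ) := by fun_prop
    have h5 := h4.tendsto (0, 0, 0)
    simp only [mul_zero, zero_mul] at h5
    have h6 := h5 hW
    rw [mem_map, nhds_prod_eq, nhds_prod_eq, mem_prod_iff] at h6
    obtain ⟨V1, hV1, V', hV', hsub⟩ := h6
    obtain ⟨V2, hV2, V3, hV3, hsub'⟩ := mem_prod_iff.1 hV'
    obtain ⟨n, hn⟩ := ex_M (hj' 1 hV2)
    have ht : ∀ f : ℕ → G, Tendsto (fun i => ∑ j ∈ Finset.range (n + 1),
        (MonoidAlgebra.single (f j) (π (rA (n, i) j)) : MonoidAlgebra R G)) atTop (𝓝 0) := by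
      intro f
      have := tendsto_finsetSum (Finset.range (n + 1))
        (fun j _ => (hj' (f j)).comp (tend_A n j))
      simpa using this
    obtain ⟨i, hi1, hi3⟩ := ((ht gg).eventually hV1).and ((ht hh).eventually hV3) |>.exists
    have h7 := hsub (Set.mk_mem_prod hi1 (hsub' (Set.mk_mem_prod (hn i) hi3)))
    simp only [Set.mem_preimage] at h7
    have hs : ∀ (g : G) (s : Finset ℕ) (f : ℕ → R), (MonoidAlgebra.single g (∑ j ∈ s, f j) :
        MonoidAlgebra R G) = ∑ j ∈ s, MonoidAlgebra.single g (f j) :=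
      fun g s f => map_sum (MonoidAlgebra.singleAddHom g) f s
    convert h7 using 1
    rw [Finset.sum_mul, Finset.sum_mul_sum, Finset.sum_mul, hc, ← π_I (n, i), ← sum_diag, map_sum,
      hs, hs, ← Finset.sum_sub_distrib]
    refine Finset.sum_congr rfl fun j hj => ?_
    rw [Finset.sum_mul, Finset.sum_eq_single j]
    · simp [hκ, mul_sub, MonoidAlgebra.single_mul_single, gh]
    · intro k _ hk
      have hz : z * z = z := rfl
      simp [hκ, mul_sub, MonoidAlgebra.single_mul_single, gh, hk, hz]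
    · intro h; exact absurd hj h
  have h8 : MonoidAlgebra.single (1 : G) c - MonoidAlgebra.single z c = 0 := by
    by_contra hne
    exact key _ (isOpen_compl_singleton.mem_nhds (Ne.symm hne)) rfl
  have h9 : (1 : G) ≠ z := fun h => one_ne_zero (congrFun h 1)
  have h10 := congrArg (fun f : MonoidAlgebra R G => f.coeff 1) h8
  simp [h9.symm] at h10
  exact π_ne h10

end Pool.Agent.Results.MP_311bfa_al.NoExt
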